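import Mathlib

/-!
# A lower bound for the number of units modulo a Gaussian integer (module PHI2, MP_ed3816_nt)
-/

set_option autoImplicit false

namespace GWA

namespace PHI2

theorem nrm_mul (a b : GaussianInt) :
    (a * b).norm.natAbs = a.norm.natAbs * b.norm.natAbs := by
  rw [Zsqrtd.norm_mul, Int.natAbs_mul]

theorem nrm_prod (s : Finset GaussianInt) :
    (∏ l ∈ s, l).norm.natAbs = ∏ l ∈ s, l.norm.natAbs := by
  classical
  induction s using Finset.induction_on with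
  | empty => simp
  | insert a s ha ih => rw [Finset.prod_insert ha, Finset.prod_insert ha, nrm_mul, ih]

theorem nrm_star (a : GaussianInt) : (star a).norm.natAbs = a.norm.natAbs := by
  rw [Zsqrtd.norm_conj]

theorem nrm_pos {a : GaussianInt} (h : a ≠ 0) : 0 < a.norm.natAbs := by
  apply Nat.pos_of_ne_zero
  intro h0
  exact h ((Zsqrtd.norm_eq_zero_iff (by norm_num) a).mp (Int.natAbs_eq_zero.mp h0))

theorem nrm_prime {l : GaussianInt} (h : Prime l) : 2 ≤ l.norm.natAbs := by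
  have h1 := nrm_pos h.ne_zero
  have h2 : l.norm.natAbs ≠ 1 := fun h' => h.not_isUnit (Zsqrtd.norm_eq_one_iff.mp h')
  omega

theorem nrm_dvd {a b : GaussianInt} (h : a ∣ b) : a.norm.natAbs ∣ b.norm.natAbs := by
  obtain ⟨c, rfl⟩ := h
  rw [nrm_mul]
  exact dvd_mul_right _ _

/-- a divisor with the same norm is associated -/
theorem assoc_of_dvd {a b : GaussianInt} (ha : a ≠ 0) (h : a ∣ b)
    (hn : a.norm.natAbs = b.norm.natAbs) : Associated a b := by
  obtain ⟨c, rfl⟩ := h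
  rw [nrm_mul] at hn
  have h1 : c.norm.natAbs = 1 := by
    have h0 := nrm_pos ha
    apply Nat.eq_of_mul_eq_mul_left h0
    rw [mul_one]
    exact hn.symm
  exact ⟨(Zsqrtd.norm_eq_one_iff.mp h1).unit, rfl⟩

theorem mul_star_eq (a : GaussianInt) : a * star a = ((a.norm.natAbs : ℤ) : GaussianInt) := by
  have h1 : (a.norm.natAbs : ℤ) = a.norm :=
    Int.natAbs_of_nonneg (Zsqrtd.norm_nonneg (by norm_num) a)
  rw [h1, Zsqrtd.norm_eq_mul_conj]

/-- two primes of the same norm are associated or conjugate -/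
theorem assoc_or {l l' : GaussianInt} (h : Prime l) (hn : l.norm.natAbs = l'.norm.natAbs) :
    Associated l l' ∨ Associated l (star l') := by
  have h1 : l ∣ l' * star l' := by
    rw [mul_star_eq, ← hn, ← mul_star_eq]
    exact dvd_mul_right _ _
  rcases h.dvd_or_dvd h1 with h2 | h2
  · exact Or.inl (assoc_of_dvd h.ne_zero h2 hn)
  · exact Or.inr (assoc_of_dvd h.ne_zero h2 (by rw [nrm_star, hn]))

/-- at most two classes of primes have the same norm -/
theorem card_fibre (s : Finset GaussianInt) (hs : ∀ l ∈ s, Prime l)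
    (ha : ∀ l ∈ s, ∀ l' ∈ s, Associated l l' → l = l') (m : ℕ) :
    (s.filter fun l => l.norm.natAbs = m).card ≤ 2 := by
  classical
  by_contra hc
  rw [not_le, Finset.two_lt_card] at hc
  obtain ⟨a, h1, b, h2, c, h3, hab, hac, hbc⟩ := hc
  rw [Finset.mem_filter] at h1 h2 h3
  have h4 : Associated b (star a) := by
    rcases assoc_or (hs b h2.1) (h2.2.trans h1.2.symm) with h | h
    · exact absurd (ha b h2.1 a h1.1 h).symm hab
    · exact h
  have h5 : Associated c (star a) := by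
    rcases assoc_or (hs c h3.1) (h3.2.trans h1.2.symm) with h | h
    · exact absurd (ha c h3.1 a h1.1 h).symm hac
    · exact h
  exact hbc (ha b h2.1 c h3.1 (h4.trans h5.symm))

/-- the product of pairwise non-associated primes divides -/
theorem prod_dvd (s : Finset GaussianInt) (hs : ∀ l ∈ s, Prime l)
    (ha : ∀ l ∈ s, ∀ l' ∈ s, Associated l l' → l = l') {n : GaussianInt}
    (hd : ∀ l ∈ s, l ∣ n) : (∏ l ∈ s, l) ∣ n := by
  refine Finset.prod_dvd_of_isRelPrime ?_ hd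
  intro l hl l' hl' hne
  show IsRelPrime l l'
  rw [(hs l hl).irreducible.isRelPrime_iff_not_dvd]
  intro h
  exact hne (ha l hl l' hl' ((hs l hl).irreducible.associated_of_dvd (hs l' hl').irreducible h))

theorem prod_Icc (B : ℕ) (hB : 1 ≤ B) :
    ∏ m ∈ Finset.Icc 2 B, (1 - 1 / (m : ℝ)) = 1 / B := by
  induction B, hB using Nat.le_induction with
  | base => simp
  | succ B hB ih =>
    have hB' : (B : ℝ) ≠ 0 := by
      have : 0 < B := hB
      positivity
    rw [Finset.prod_Icc_succ_top (by omega), ih]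
    have h2 : ((B + 1 : ℕ) : ℝ) ≠ 0 := by positivity
    field_simp
    push_cast
    ring

/-- the part of small norm -/
theorem small_part (s : Finset GaussianInt) (hs : ∀ l ∈ s, Prime l)
    (ha : ∀ l ∈ s, ∀ l' ∈ s, Associated l l' → l = l') (B : ℕ) (hB1 : 1 ≤ B)
    (hB : ∀ l ∈ s, l.norm.natAbs ≤ B) :
    1 / (B : ℝ) ^ 2 ≤ ∏ l ∈ s, (1 - 1 / (l.norm.natAbs : ℝ)) := by
  classical
  have h1 : ∏ l ∈ s, (1 - 1 / (l.norm.natAbs : ℝ)) =
      ∏ m ∈ Finset.Icc 2 B, (1 - 1 / (m : ℝ)) ^ (s.filter fun l => l.norm.natAbs = m).card := by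
    rw [← Finset.prod_fiberwise_of_maps_to (s := s) (t := Finset.Icc 2 B)
      (g := fun l : GaussianInt => l.norm.natAbs)]
    · apply Finset.prod_congr rfl
      intro m _
      rw [Finset.prod_congr rfl (g := fun _ => (1 - 1 / (m : ℝ)))]
      · rw [Finset.prod_const]
      · intro l hl
        rw [(Finset.mem_filter.mp hl).2]
    · intro l hl
      exact Finset.mem_Icc.mpr ⟨nrm_prime (hs l hl), hB l hl⟩
  rw [h1]
  have h2 : 1 / (B : ℝ) ^ 2 = ∏ m ∈ Finset.Icc 2 B, (1 - 1 / (m : ℝ)) ^ 2 := by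
    rw [Finset.prod_pow, prod_Icc B hB1, div_pow, one_pow]
  rw [h2]
  apply Finset.prod_le_prod
  · intro m _
    positivity
  · intro m hm
    have hm2 : (2 : ℝ) ≤ m := by exact_mod_cast (Finset.mem_Icc.mp hm).1
    have h3 : 1 / (m : ℝ) ≤ 1 := by
      rw [div_le_one (by linarith)]
      linarith
    have h4 : 0 < 1 / (m : ℝ) := by positivity
    exact pow_le_pow_of_le_one (by linarith) (by linarith) (card_fibre s hs ha m)

/-- the part of large norm -/
theorem large_part (s : Finset GaussianInt) (k B : ℕ) (hk : s.card ≤ k) (hkB : 2 * k ≤ B + 1)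
    (hB : ∀ l ∈ s, B + 1 ≤ l.norm.natAbs) :
    1 / 2 ≤ ∏ l ∈ s, (1 - 1 / (l.norm.natAbs : ℝ)) := by
  have hB0 : (0 : ℝ) < (B : ℝ) + 1 := by positivity
  have h1 : ∀ l ∈ s, 1 - 1 / ((B : ℝ) + 1) ≤ 1 - 1 / (l.norm.natAbs : ℝ) := by
    intro l hl
    have h2 : (B : ℝ) + 1 ≤ (l.norm.natAbs : ℝ) := by exact_mod_cast hB l hl
    have h3 : 1 / (l.norm.natAbs : ℝ) ≤ 1 / ((B : ℝ) + 1) :=
      one_div_le_one_div_of_le hB0 h2
    linarith
  have h4 : 1 / ((B : ℝ) + 1) ≤ 1 := by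
    rw [div_le_one hB0]
    have : (0 : ℝ) ≤ B := by positivity
    linarith
  calc (1 : ℝ) / 2 ≤ 1 + (s.card : ℝ) * (-(1 / ((B : ℝ) + 1))) := by
        have h5 : (s.card : ℝ) ≤ k := by exact_mod_cast hk
        have h6 : 2 * (k : ℝ) ≤ (B : ℝ) + 1 := by exact_mod_cast hkB
        have h7 : (s.card : ℝ) * (1 / ((B : ℝ) + 1)) ≤ 1 / 2 := by
          rw [mul_one_div, div_le_iff₀ hB0]
          linarith
        linarith
    _ ≤ (1 + (-(1 / ((B : ℝ) + 1)))) ^ s.card := one_add_mul_le_pow (by linarith) _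
    _ = ∏ l ∈ s, (1 - 1 / ((B : ℝ) + 1)) := by
        rw [Finset.prod_const, ← sub_eq_add_neg]
    _ ≤ ∏ l ∈ s, (1 - 1 / (l.norm.natAbs : ℝ)) :=
        Finset.prod_le_prod (fun _ _ => by linarith) h1

/-- the lower bound, from the product formula -/
theorem main (n : GaussianInt) (hn : n ≠ 0) (q g B : ℕ) (hN : n.norm.natAbs ≤ 3 * q ^ g)
    (hB : 8 * g + 2 ≤ B) (hq2 : q < (B + 1) ^ 4)
    (hcount : ∃ s : Finset GaussianInt,
      (∀ l ∈ s, Prime l ∧ l ∣ n) ∧ (∀ l ∈ s, ∀ l' ∈ s, Associated l l' → l = l') ∧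
      (Nat.card (GaussianInt ⧸ Ideal.span {n})ˣ : ℝ) =
        n.norm.natAbs * ∏ l ∈ s, (1 - 1 / (l.norm.natAbs : ℝ))) :
    n.norm.natAbs ≤ 2 * B ^ 2 * Nat.card (GaussianInt ⧸ Ideal.span {n})ˣ := by
  classical
  obtain ⟨s, h1, h2, h3⟩ := hcount
  have hsp := Finset.prod_filter_mul_prod_filter_not s (fun l => l.norm.natAbs ≤ B)
    (fun l => (1 - 1 / (l.norm.natAbs : ℝ)))
  set s2 := s.filter (fun l => l.norm.natAbs ≤ B) with hs2
  set s1 := s.filter (fun l => ¬ l.norm.natAbs ≤ B) with hs1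
  have hlarge : ∀ l ∈ s1, B + 1 ≤ l.norm.natAbs := by
    intro l hl
    have := (Finset.mem_filter.mp hl).2
    omega
  have hcard : s1.card ≤ 4 * g + 1 := by
    have h4 : (∏ l ∈ s1, l) ∣ n := prod_dvd s1 (fun l hl => (h1 l (Finset.mem_filter.mp hl).1).1)
      (fun l hl l' hl' => h2 l (Finset.mem_filter.mp hl).1 l' (Finset.mem_filter.mp hl').1)
      (fun l hl => (h1 l (Finset.mem_filter.mp hl).1).2)
    have h5 : (∏ l ∈ s1, l).norm.natAbs ≤ n.norm.natAbs :=
      Nat.le_of_dvd (nrm_pos hn) (nrm_dvd h4)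
    have h6 : (B + 1) ^ s1.card ≤ ∏ l ∈ s1, l.norm.natAbs := by
      rw [← Finset.prod_const]
      exact Finset.prod_le_prod' hlarge
    have h7 : q ^ g ≤ ((B + 1) ^ 4) ^ g := Nat.pow_le_pow_left hq2.le g
    have h8 : (B + 1) ^ s1.card ≤ (B + 1) ^ (4 * g + 1) := by
      calc (B + 1) ^ s1.card ≤ n.norm.natAbs := h6.trans (by rw [← nrm_prod]; exact h5)
        _ ≤ 3 * q ^ g := hN
        _ ≤ (B + 1) * ((B + 1) ^ 4) ^ g := Nat.mul_le_mul (by omega) h7
        _ = (B + 1) ^ (4 * g + 1) := by rw [← pow_mul]; ring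
    exact (Nat.pow_le_pow_iff_right (by omega)).mp h8
  have hP1 := large_part s1 (4 * g + 1) B hcard (by omega) hlarge
  have hP2 := small_part s2 (fun l hl => (h1 l (Finset.mem_filter.mp hl).1).1)
    (fun l hl l' hl' => h2 l (Finset.mem_filter.mp hl).1 l' (Finset.mem_filter.mp hl').1) B
    (by omega) (fun l hl => (Finset.mem_filter.mp hl).2)
  have hB0 : (0 : ℝ) < B := by
    have : 0 < B := by omega
    exact_mod_cast this
  have h9 : 1 / (2 * (B : ℝ) ^ 2) ≤ ∏ l ∈ s, (1 - 1 / (l.norm.natAbs : ℝ)) := by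
    rw [← hsp]
    calc 1 / (2 * (B : ℝ) ^ 2) = 1 / (B : ℝ) ^ 2 * (1 / 2) := by
          field_simp
      _ ≤ _ := mul_le_mul hP2 hP1 (by norm_num) (le_trans (by positivity) hP2)
  have h10 : (n.norm.natAbs : ℝ) ≤
      2 * (B : ℝ) ^ 2 * Nat.card (GaussianInt ⧸ Ideal.span {n})ˣ := by
    rw [h3]
    have h11 : (0 : ℝ) ≤ n.norm.natAbs := by positivity
    calc (n.norm.natAbs : ℝ) = 2 * (B : ℝ) ^ 2 * (n.norm.natAbs * (1 / (2 * (B : ℝ) ^ 2))) := by
          field_simp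
      _ ≤ _ := by
          apply mul_le_mul_of_nonneg_left _ (by positivity)
          exact mul_le_mul_of_nonneg_left h9 h11
  exact_mod_cast h10

end PHI2

/-- PHI2 with `units_count` as a hypothesis -/
theorem phi_lower_of (hcount : ∀ n : GaussianInt, n ≠ 0 → ∃ s : Finset GaussianInt,
      (∀ l ∈ s, Prime l ∧ l ∣ n) ∧ (∀ l ∈ s, ∀ l' ∈ s, Associated l l' → l = l') ∧
      (Nat.card (GaussianInt ⧸ Ideal.span {n})ˣ : ℝ) =
        n.norm.natAbs * ∏ l ∈ s, (1 - 1 / (l.norm.natAbs : ℝ)))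
    (n : GaussianInt) (hn : n ≠ 0) (q g B : ℕ) (hN : n.norm.natAbs ≤ 3 * q ^ g)
    (hB : 8 * g + 2 ≤ B) (_hq1 : B ^ 4 ≤ q) (hq2 : q < (B + 1) ^ 4) :
    n.norm.natAbs ≤ 2 * B ^ 2 * Nat.card (GaussianInt ⧸ Ideal.span {n})ˣ :=
  PHI2.main n hn q g B hN hB hq2 (hcount n hn)

end GWA
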